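import Pool.Agent.H19.STAT.Sys2L
import Pool.Agent.H35.TMU.Tmu
import Pool.Agent.H39.BFL.Prob

/-!
# Sub-cells

`Ok2`, `NF`, `TmU`, `TmL`, `LLV`, `LLN`, `Concl2` under changes of the constants, for smaller cells,
and for cells `sc D J w₀ i₀ j₀ N z` with another corner and a coarser mesh.
-/

set_option autoImplicit false

namespace Pool.STAT

open Finset MvPolynomial
open Pool.Agent.H49.Ent Pool.Agent.H32.Dense Pool.STK Pool.KS3
open Pool.BFL (Pl CB Pb P2 MC alt)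

/-! ### Many steps -/

theorem det_steps {Ω G : Type} {q : Ω → ℝ} {f : ℕ → Ω → G} {m N : ℕ}
    (h : ∀ k < N, Det q (f (m + k + 1)) (f (m + k))) : Det q (f (m + N)) (f m) := by
  induction N with
  | zero => exact fun _ _ _ _ e => e
  | succ N ih =>
    intro ω ω' a b e
    exact ih (fun k hk => h k (by omega)) ω ω' a b (h N (by omega) ω ω' a b e)

theorem ch_steps {Ω G : Type} [Fintype Ω] {q : Ω → ℝ} (hq : IsLaw q) {f : ℕ → Ω → G} {m N : ℕ}
    {c : ℝ} (h : ∀ k < N, CH q (f (m + k + 1)) (f (m + k)) ≤ c) :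
    CH q (f (m + N)) (f m) ≤ N * c := by
  induction N with
  | zero =>
    rw [Nat.cast_zero, zero_mul]
    exact (CH_eq_zero hq.nonneg fun _ _ _ _ e => e).le
  | succ N ih =>
    have h1 := ih fun k hk => h k (by omega)
    have h2 := h N (by omega)
    have h3 := CH_le_add hq.nonneg (f (m + (N + 1))) (f (m + N)) (f m)
    have h4 : CH q (f (m + (N + 1))) (fun ω => (f (m + N) ω, f m ω)) ≤
        CH q (f (m + N + 1)) (f (m + N)) :=
      CH_mono_cond hq.nonneg fun _ _ _ _ e => (Prod.ext_iff.1 e).1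
    push_cast
    linarith

namespace NDat2

variable {D : NDat2} {n K J a₀ w₀ z M B : ℕ} {lam gam : ℕ → ℝ} {κ C₁ : ℝ} {q : D.Ω → ℝ}

/-- Weaker constants. -/
theorem Ok2.mono (h : D.Ok2 n K J a₀ w₀ z M lam gam κ C₁ q) {K' : ℕ} {κ' C₁' : ℝ}
    (hK : K ≤ K') (hκ : κ ≤ κ') (hC : C₁ ≤ C₁') :
    D.Ok2 n K' J a₀ w₀ z M lam gam κ' C₁' q := by
  have hz : (0 : ℝ) ≤ z := Nat.cast_nonneg z
  have h1 : κ * z ≤ κ' * z := mul_le_mul_of_nonneg_right hκ hz
  have h2 : C₁ * z ≤ C₁' * z := mul_le_mul_of_nonneg_right hC hz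
  exact
  { h with
    pa_deg := fun x l => (h.pa_deg x l).trans hK
    i_few := fun i hi j hj => (h.i_few i hi j hj).trans h2
    ij_few := fun i hi j hj => (h.ij_few i hi j hj).trans h2
    P_deg := fun i j x l => (h.P_deg i j x l).trans hK
    G_deg := fun i j x l => (h.G_deg i j x l).trans hK
    net := fun i hi j hj C hC0 Y y hy hb => (h.net i hi j hj C hC0 Y y hy hb).trans (by
      refine mul_le_mul_of_nonneg_right ?_ hz
      exact mul_le_mul_of_nonneg_right hC (by linarith))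
    hom := fun i hi j hj l l1 l2 => (h.hom i hi j hj l l1 l2).trans h2
    g_ge := fun i hi j hj l l1 l2 => (h.g_ge i hi j hj l l1 l2).trans (by linarith)
    full := fun i hi j hj U hU => le_trans (by linarith) (h.full i hi j hj U hU) }

/-- Smaller cells. -/
theorem Ok2.subM (h : D.Ok2 n K J a₀ w₀ z M lam gam κ C₁ q) {M' : ℕ} (hM : M' ≤ M) :
    D.Ok2 n K J a₀ w₀ z M' lam gam κ C₁ q := by
  have h1 : M' * z ≤ M * z := Nat.mul_le_mul_right z hM
  have h2 : (M' + 1) * z ≤ (M + 1) * z := Nat.mul_le_mul_right z (by omega)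
  exact
  { h with
    thin := le_trans (by omega) h.thin
    top := le_trans (by omega) h.top
    c_wn := fun i hi j hj => h.c_wn i (hi.trans hM) j (hj.trans hM)
    c_i := fun i hi j hj => h.c_i i (hi.trans_le hM) j (hj.trans hM)
    c_ij := fun i hi j hj => h.c_ij i (hi.trans_le hM) j (hj.trans_le hM)
    i_few := fun i hi j hj => h.i_few i (hi.trans_le hM) j (hj.trans hM)
    ij_few := fun i hi j hj => h.ij_few i (hi.trans_le hM) j (hj.trans_le hM)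
    c_T := fun i hi j hj => h.c_T i (hi.trans hM) j (hj.trans hM)
    s_pt := fun i hi j hj => h.s_pt i (hi.trans hM) j (hj.trans hM)
    s_c := fun i hi j hj => h.s_c i (hi.trans hM) j (hj.trans hM)
    net := fun i hi j hj => h.net i (hi.trans hM) j (hj.trans hM)
    hom := fun i hi j hj => h.hom i (hi.trans hM) j (hj.trans hM)
    g_ge := fun i hi j hj => h.g_ge i (hi.trans hM) j (hj.trans hM)
    g_le := fun i hi j hj l l1 l2 =>
      le_trans (by omega) (h.g_le i (hi.trans hM) j (hj.trans hM) l l1 l2)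
    hgt := fun i hi j hj => h.hgt i (hi.trans hM) j (hj.trans hM)
    pos := fun i hi j hj => h.pos i (hi.trans hM) j (hj.trans hM)
    agr := fun i hi j hj => h.agr i (hi.trans hM) j (hj.trans hM)
    full := fun i hi j hj U hU => h.full i (hi.trans hM) j (hj.trans hM) U (hU.trans hM) }

theorem NF.mono {h h' C₁ C₁' ϖ ϖ' : ℝ} {q : D.Ω → ℝ} (hN : D.NF n z M B gam h C₁ ϖ q)
    (hh : h' ≤ h) (hC : C₁ ≤ C₁') (hϖ : ϖ ≤ ϖ') : D.NF n z M B gam h' C₁' ϖ' q := by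
  intro i hi j hj r U hr hg E hE
  have hz : (0 : ℝ) ≤ z := Nat.cast_nonneg z
  refine (hN i hi j hj r U hr hg E (le_trans hϖ hE)).trans ?_
  have h1 : (1 - h) * (U * z) * Real.log 2 ≤ (1 - h') * (U * z) * Real.log 2 := by
    refine mul_le_mul_of_nonneg_right ?_ (Real.log_pos one_lt_two).le
    exact mul_le_mul_of_nonneg_right (by linarith) (by positivity)
  have h2 : C₁ * z ≤ C₁' * z := mul_le_mul_of_nonneg_right hC hz
  linarith

theorem NF.subM {h C₁ ϖ : ℝ} {q : D.Ω → ℝ} (hg : 0 ≤ gam n) (hN : D.NF n z M B gam h C₁ ϖ q)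
    {M' : ℕ} (hM : M' ≤ M) : D.NF n z M' B gam h C₁ ϖ q := by
  intro i hi j hj r U hr hr' E hE
  refine hN i (hi.trans hM) j (hj.trans hM) r U (hr.trans hM) (hr'.trans ?_) E hE
  refine mul_le_mul_of_nonneg_left ?_ hg
  have : (M' : ℝ) ≤ M := by exact_mod_cast hM
  linarith

theorem NewLab2.mono {i j l A A' K' K'' : ℕ} {η η' : ℝ} {q : D.Ω → ℝ} (hq : ∀ ω, 0 ≤ q ω)
    (h : D.NewLab2 J a₀ w₀ z i j l A K' η q) (hA : A' ≤ A) (hK : K' ≤ K'') (hη : η' ≤ η) :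
    D.NewLab2 J a₀ w₀ z i j l A' K'' η' q := by
  obtain ⟨Gn, Hn, h1, h2, h3⟩ := h
  refine ⟨Gn, Hn, fun x => ⟨(h1 x).1.trans hK, (h1 x).2⟩, fun x => ⟨(h2 x).1.trans hK, (h2 x).2⟩,
    (hη.trans h3).trans ?_⟩
  have h4 : (1 : ℝ) / 2 ^ (D.g i j l + A * z) ≤ 1 / 2 ^ (D.g i j l + A' * z) := by
    refine one_div_le_one_div_of_le (by positivity) (pow_le_pow_right₀ one_le_two ?_)
    have := Nat.mul_le_mul_right z hA
    omega
  exact Pool.Agent.H39.BFL.Pb_mono hq fun ω _ hω =>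
    ⟨hω.1.trans h4, fun b hb => (hω.2 b hb).trans h4⟩

theorem Concl2.subM {A K' : ℕ} {η' : ℝ} {M' : ℕ} (hM : M' ≤ M)
    (h : D.Concl2 n J a₀ w₀ z M' A K' η' q) : D.Concl2 n J a₀ w₀ z M A K' η' q := by
  obtain ⟨i, hi, j, hj, h⟩ := h
  exact ⟨i, hi.trans hM, j, hj.trans hM, h⟩

/-! ### Sub-cells -/

/-- The cell with the corner `(i₀, j₀)` and the mesh `N z`. The line contains the window. -/
def sc (D : NDat2) (J w₀ i₀ j₀ N z : ℕ) : NDat2 where
  Ω := D.Ω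
  Λ := D.Λ × ℕ
  Γ := D.Γ
  Ξ := D.Ξ
  S := D.S
  fin := D.fin
  ln := D.wn J (w₀ + j₀ * z)
  pt := D.pt
  T := D.T
  X := D.X
  pa := fun l => D.pa l.1
  c := fun i j => D.c (i₀ + i * N) (j₀ + j * N)
  P := fun i j => D.P (i₀ + i * N) (j₀ + j * N)
  s := fun i j => D.s (i₀ + i * N) (j₀ + j * N)
  G := fun i j => D.G (i₀ + i * N) (j₀ + j * N)
  g := fun i j => D.g (i₀ + i * N) (j₀ + j * N)

variable {i₀ j₀ N M' : ℕ}

/-- The arithmetic of the grids. -/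
structure SubG (i₀ j₀ N M' M : ℕ) : Prop where
  N_pos : 1 ≤ N
  i_le : i₀ + (M' + 1) * N ≤ M + 1
  j_le : j₀ + (M' + 1) * N ≤ M + 1

theorem SubG.lei (h : SubG i₀ j₀ N M' M) {i : ℕ} (hi : i ≤ M') : i₀ + i * N ≤ M := by
  have h1 := Nat.mul_le_mul_right N hi
  have h2 := h.i_le
  have h3 := h.N_pos
  rw [Nat.add_mul] at h2
  omega

theorem SubG.lej (h : SubG i₀ j₀ N M' M) {i : ℕ} (hi : i ≤ M') : j₀ + i * N ≤ M := by
  have h1 := Nat.mul_le_mul_right N hi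
  have h2 := h.j_le
  have h3 := h.N_pos
  rw [Nat.add_mul] at h2
  omega

theorem SubG.lti (h : SubG i₀ j₀ N M' M) {i : ℕ} (hi : i < M') {k : ℕ} (hk : k < N) :
    i₀ + i * N + k < M := by
  have h1 := h.lei (i := i + 1) hi
  rw [Nat.add_mul] at h1
  omega

theorem SubG.ltj (h : SubG i₀ j₀ N M' M) {i : ℕ} (hi : i < M') {k : ℕ} (hk : k < N) :
    j₀ + i * N + k < M := by
  have h1 := h.lej (i := i + 1) hi
  rw [Nat.add_mul] at h1
  omega

theorem wn_sc_det (J w : ℕ) : Det q (D.wn J w) (fun ω => D.T ω / 2 ^ (J - w)) :=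
  fun _ _ _ _ e => (Prod.ext_iff.1 e).2

theorem wn_sc (J : ℕ) (i₀ N : ℕ) {w : ℕ} (hw : w₀ + j₀ * z ≤ w) (hJ : w ≤ J) :
    Det q (D.wn J w) ((D.sc J w₀ i₀ j₀ N z).wn J w) := by
  intro ω ω' _ _ e
  have e1 := (Prod.ext_iff.1 e).1
  have e2 : D.T ω / 2 ^ (J - w) = D.T ω' / 2 ^ (J - w) := (Prod.ext_iff.1 e).2
  refine Prod.ext (Prod.ext e1 ?_) e2
  show D.T ω / 2 ^ (J - (w₀ + j₀ * z)) = D.T ω' / 2 ^ (J - (w₀ + j₀ * z))
  rw [Pool.TMU.win_div _ hw hJ, Pool.TMU.win_div (D.T ω') hw hJ, e2]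

theorem wn_cs (J : ℕ) (i₀ N w : ℕ) :
    Det q ((D.sc J w₀ i₀ j₀ N z).wn J w) (D.wn J w) := by
  intro ω ω' _ _ e
  exact Prod.ext (Prod.ext_iff.1 (Prod.ext_iff.1 e).1).1 (Prod.ext_iff.1 e).2

/-- The windows of a sub-cell. -/
theorem SubG.wle (hG : SubG i₀ j₀ N M' M) {J a₀ w₀ z : ℕ} (h3 : w₀ + (M + 1) * z ≤ a₀)
    (h4 : a₀ + (M + 1) * z ≤ J) {j x : ℕ} (hj : j ≤ M') (hx : x ≤ M * z) :
    w₀ + j₀ * z ≤ w₀ + (j₀ + j * N) * z + x ∧ w₀ + (j₀ + j * N) * z + x ≤ J := by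
  have h2 := Nat.mul_le_mul_right z (hG.lej hj)
  have h5 : j₀ * z ≤ (j₀ + j * N) * z := Nat.mul_le_mul_right z (Nat.le_add_right _ _)
  rw [Nat.add_mul] at h3 h4
  exact ⟨by omega, by omega⟩

theorem ea (a₀ i₀ N z i : ℕ) : a₀ + i₀ * z + i * (N * z) = a₀ + (i₀ + i * N) * z := by ring

/-- The levels of a sub-cell. -/
theorem Ok2.sc_hom (h : D.Ok2 n K J a₀ w₀ z M lam gam κ C₁ q) (hG : SubG i₀ j₀ N M' M)
    (hN : 2 ≤ N) (hC : 0 ≤ C₁) {i j l : ℕ} (hi : i ≤ M') (hj : j ≤ M') (l1 : 1 ≤ l) (l2 : l ≤ n) :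
    |(D.g (i₀ + i * N) (j₀ + j * N) l : ℝ) - D.g (i₀ + 0 * N) (j₀ + 0 * N) l -
      (lam l * i + gam l * j) * ((N * z : ℕ) : ℝ)| ≤ C₁ * ((N * z : ℕ) : ℝ) := by
  have h1 := h.hom _ (hG.lei hi) _ (hG.lej hj) l l1 l2
  have h2 := h.hom _ (hG.lei (Nat.zero_le _)) _ (hG.lej (Nat.zero_le _)) l l1 l2
  push_cast at h1 h2 ⊢
  have h3 : (2 : ℝ) ≤ N := by exact_mod_cast hN
  have h4 : C₁ * z * 2 ≤ C₁ * z * N :=
    mul_le_mul_of_nonneg_left h3 (mul_nonneg hC (Nat.cast_nonneg z))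
  rw [abs_le] at h1 h2 ⊢
  constructor <;> nlinarith

/-- **The axioms of a sub-cell.** -/
theorem Ok2.sc (h : D.Ok2 n K J a₀ w₀ z M lam gam κ C₁ q) (hG : SubG i₀ j₀ N M' M)
    (hN : 2 ≤ N) (hC : 0 ≤ C₁) {κ' : ℝ} (hκ : κ ≤ κ' * N) :
    (D.sc J w₀ i₀ j₀ N z).Ok2 n K J (a₀ + i₀ * z) (w₀ + j₀ * z) (N * z) M' lam gam κ' C₁ q := by
  have hz : (0 : ℝ) ≤ z := Nat.cast_nonneg z
  have hN1 : (1 : ℝ) ≤ N := by exact_mod_cast (by omega : 1 ≤ N)
  have hNz : ((N * z : ℕ) : ℝ) = N * z := by push_cast; ring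
  have hCz : C₁ * z ≤ C₁ * ((N * z : ℕ) : ℝ) := by
    rw [hNz]
    have := mul_le_mul_of_nonneg_left hN1 (mul_nonneg hC hz)
    linarith
  have eb : ∀ j, w₀ + j₀ * z + j * (N * z) = w₀ + (j₀ + j * N) * z := fun j => by ring
  have t1 : j₀ * z + (M' + 1) * (N * z) ≤ (M + 1) * z := by
    have := Nat.mul_le_mul_right z hG.j_le
    nlinarith
  have t2 : i₀ * z + (M' + 1) * (N * z) ≤ (M + 1) * z := by
    have := Nat.mul_le_mul_right z hG.i_le
    nlinarith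
  have ei : ∀ i, i₀ + (i + 1) * N = i₀ + i * N + N := fun i => by ring
  have ej : ∀ i, j₀ + (i + 1) * N = j₀ + i * N + N := fun i => by ring
  exact
  { isLaw := h.isLaw
    thin := by have := h.thin; omega
    top := by have := h.top; omega
    T_lt := h.T_lt
    X_zero := h.X_zero
    pt_T := h.pt_T
    pt_X := h.pt_X
    str := h.str
    pa_deg := fun x l => h.pa_deg x.1 l
    ln_w := fun ω ω' _ _ e => (Prod.ext_iff.1 e).2
    c_wn := fun i hi j hj => by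
      have h1 := h.c_wn _ (hG.lei hi) _ (hG.lej hj)
      rw [eb]
      exact fun ω ω' a b e => h1 ω ω' a b (wn_cs (D := D) (q := q) J i₀ N _ ω ω' a b e)
    c_i := fun i hi j hj => by
      show Det q (D.c (i₀ + (i + 1) * N) (j₀ + j * N)) (D.c (i₀ + i * N) (j₀ + j * N))
      rw [ei]
      exact det_steps (f := fun k => D.c k (j₀ + j * N)) fun k hk =>
        h.c_i _ (hG.lti hi hk) _ (hG.lej hj)
    c_ij := fun i hi j hj => by
      show Det q (D.c (i₀ + (i + 1) * N) (j₀ + (j + 1) * N)) (D.c (i₀ + i * N) (j₀ + j * N))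
      rw [ei, ej]
      have h1 := det_steps (q := q) (f := fun k => D.c (i₀ + i * N + k) (j₀ + j * N + k)) (m := 0)
        (N := N) fun k hk => by
          rw [Nat.zero_add]
          exact h.c_ij _ (hG.lti hi hk) _ (hG.ltj hj hk)
      rw [Nat.zero_add] at h1
      exact h1
    i_few := fun i hi j hj => by
      show CH q (D.c (i₀ + (i + 1) * N) (j₀ + j * N)) (D.c (i₀ + i * N) (j₀ + j * N)) ≤ _
      rw [ei]
      refine (ch_steps h.isLaw (f := fun k => D.c k (j₀ + j * N)) fun k hk =>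
        h.i_few _ (hG.lti hi hk) _ (hG.lej hj)).trans (le_of_eq ?_)
      rw [hNz]
      ring
    ij_few := fun i hi j hj => by
      show CH q (D.c (i₀ + (i + 1) * N) (j₀ + (j + 1) * N)) (D.c (i₀ + i * N) (j₀ + j * N)) ≤ _
      rw [ei, ej]
      have h1 := ch_steps h.isLaw (f := fun k => D.c (i₀ + i * N + k) (j₀ + j * N + k)) (m := 0)
        (N := N) fun k hk => by
          rw [Nat.zero_add]
          exact h.ij_few _ (hG.lti hi hk) _ (hG.ltj hj hk)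
      rw [Nat.zero_add] at h1
      refine h1.trans (le_of_eq ?_)
      rw [hNz]
      ring
    c_T := fun i hi j hj => by
      have h1 := h.c_T _ (hG.lei hi) _ (hG.lej hj)
      rw [eb]
      exact h1
    P_deg := fun i j => h.P_deg _ _
    P_tri := fun i j => h.P_tri _ _
    s_pt := fun i hi j hj => h.s_pt _ (hG.lei hi) _ (hG.lej hj)
    s_c := fun i hi j hj => h.s_c _ (hG.lei hi) _ (hG.lej hj)
    G_deg := fun i j => h.G_deg _ _
    G_tri := fun i j => h.G_tri _ _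
    net := fun i hi j hj C hC0 Y y hy hb => by
      have h1 := h.net _ (hG.lei hi) _ (hG.lej hj) (C * N) (by positivity) Y y hy
        (fun ω ω' a b e l l1 l2 x hx => by
          have h2 := hb ω ω' a b e l l1 l2 x (by rw [ea]; exact hx)
          have e1 : C * N * z = C * ((N * z : ℕ) : ℝ) := by push_cast; ring
          rw [e1]
          exact h2)
      refine h1.trans ?_
      rw [hNz]
      have h3 := mul_le_mul_of_nonneg_left hN1 (mul_nonneg hC hz)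
      nlinarith
    lam_ge := h.lam_ge
    gam_ge := h.gam_ge
    g_zero := fun i j => by
      rw [eb]
      exact h.g_zero _ _
    hom := fun i hi j hj l l1 l2 => h.sc_hom hG hN hC hi hj l1 l2
    g_ge := fun i hi j hj l l1 l2 => by
      have h1 := h.g_ge _ (hG.lei hi) _ (hG.lej hj) l l1 l2
      refine le_trans (le_of_eq ?_) (h1.trans (by
        show _ ≤ (D.g (i₀ + i * N) (j₀ + j * N) l : ℝ) + _
        linarith))
      push_cast
      ring
    g_le := fun i hi j hj l l1 l2 => by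
      have h1 := h.g_le _ (hG.lei hi) _ (hG.lej hj) l l1 l2
      have h2 : M' * (N * z) ≤ M * z := by
        have := hG.lei le_rfl
        nlinarith
      show D.g (i₀ + i * N) (j₀ + j * N) l + _ ≤ J
      omega
    hgt := fun i hi j hj => h.hgt _ (hG.lei hi) _ (hG.lej hj)
    pos := fun i hi j hj => h.pos _ (hG.lei hi) _ (hG.lej hj)
    agr := fun i hi j hj => by
      rw [ea]
      exact h.agr _ (hG.lei hi) _ (hG.lej hj)
    full := fun i hi j hj U hU => by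
      have h1 := h.full _ (hG.lei hi) _ (hG.lej hj) (U * N) (by
        have h2 := hG.lei hU
        rw [Nat.add_mul] at h2
        omega)
      rw [show U * N * z = U * (N * z) by ring] at h1
      refine le_trans ?_ h1
      rw [hNz]
      have h3 : κ * z ≤ κ' * N * z := mul_le_mul_of_nonneg_right hκ hz
      push_cast
      nlinarith }

/-- **Nonfull rows of a sub-cell.** -/
theorem NF.sc {h C₁ C₁' ϖ : ℝ} (hN : D.NF n z M B gam h C₁ ϖ q) (hG : SubG i₀ j₀ N M' M)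
    (hg : 0 ≤ gam n) (hC : C₁ ≤ C₁' * N) :
    (D.sc J w₀ i₀ j₀ N z).NF n (N * z) M' B gam h C₁' ϖ q := by
  intro i hi j hj r U hr hr' E hE
  have hz : (0 : ℝ) ≤ z := Nat.cast_nonneg z
  have h1 := hN _ (hG.lei hi) _ (hG.lej hj) (r * N) (U * N) (by
    have h2 := hG.lei hr
    rw [Nat.add_mul, Nat.add_mul] at h2
    omega) (by
    have h2 : (((j₀ + M' * N : ℕ)) : ℝ) ≤ M := by exact_mod_cast hG.lej le_rfl
    have h3 : (0 : ℝ) ≤ N := Nat.cast_nonneg N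
    have h4 := mul_le_mul_of_nonneg_right hr' h3
    have h5 : gam n * ((M' - j) * N) ≤ gam n * (M - ((j₀ + j * N : ℕ) : ℝ)) := by
      refine mul_le_mul_of_nonneg_left ?_ hg
      push_cast at h2 ⊢
      linarith
    push_cast at h5 ⊢
    linarith) E hE
  rw [show (r * N + U * N) * z = (r + U) * (N * z) by ring,
    show r * N * z = r * (N * z) by ring] at h1
  refine h1.trans ?_
  have h2 : C₁ * z ≤ C₁' * N * z := mul_le_mul_of_nonneg_right hC hz
  push_cast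
  nlinarith

/-- Uniform time. -/
theorem TmU.sc (h : D.TmU J w₀ z κ q) (hO : D.Ok2 n K J a₀ w₀ z M lam gam κ C₁ q)
    (hG : SubG i₀ j₀ N M' M) {κ' : ℝ} (hκ : κ ≤ κ' * N) :
    (D.sc J w₀ i₀ j₀ N z).TmU J (w₀ + j₀ * z) (N * z) κ' q := by
  have hz : (0 : ℝ) ≤ z := Nat.cast_nonneg z
  have h1 := hG.lej (Nat.zero_le M')
  rw [Nat.zero_mul, Nat.add_zero] at h1
  have h2 := Nat.mul_le_mul_right z h1
  have h3 := hO.thin
  have h4 := hO.top
  have h5 := Pool.TMU.CH_low hO.isLaw D.T D.ln (J := J) (w₀ := w₀) (w := w₀ + j₀ * z)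
    (d := κ * z) (by omega) (by nlinarith) hO.ln_w h
  have h6 : κ * z ≤ κ' * N * z := mul_le_mul_of_nonneg_right hκ hz
  unfold TmU
  refine le_trans ?_ h5
  push_cast
  nlinarith

/-- Live time. -/
theorem TmL.sc {k' : ℕ} {εT ϖ : ℝ} (h : D.TmL J w₀ z M k' κ εT ϖ q)
    (hO : D.Ok2 n K J a₀ w₀ z M lam gam κ C₁ q) (hG : SubG i₀ j₀ N M' M) {κ' : ℝ}
    (hκ : κ ≤ κ' * N) :
    (D.sc J w₀ i₀ j₀ N z).TmL J (w₀ + j₀ * z) (N * z) M' k' κ' εT ϖ q := by
  have hz : (0 : ℝ) ≤ z := Nat.cast_nonneg z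
  have h0 := hO.isLaw.nonneg
  have hk : κ * z ≤ κ' * ((N * z : ℕ) : ℝ) := by
    have h6 : κ * z ≤ κ' * N * z := mul_le_mul_of_nonneg_right hκ hz
    push_cast
    linarith
  refine ⟨fun i hi j hj => ?_, fun j hj x hx E hE => ?_⟩
  · have h1 := h.ti _ (hG.lei hi) _ (hG.lej hj)
    have hTj := hO.c_T _ (hG.lei hi) _ (hG.lej hj)
    have h2 : CH q D.T (fun ω => (D.ln ω, D.c (i₀ + i * N) (j₀ + j * N) ω)) ≤
        CH q D.T (fun ω => (D.wn J (w₀ + j₀ * z) ω, D.c (i₀ + i * N) (j₀ + j * N) ω)) := by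
      refine CH_mono_cond h0 fun ω ω' a b e => ?_
      have e1 := (Prod.ext_iff.1 e).1
      have e2 := (Prod.ext_iff.1 e).2
      have e3 : D.T ω / 2 ^ (J - (w₀ + (j₀ + j * N) * z)) =
          D.T ω' / 2 ^ (J - (w₀ + (j₀ + j * N) * z)) := hTj ω ω' a b e2
      obtain ⟨hw, hJ⟩ := hG.wle hO.thin hO.top hj (Nat.zero_le _)
      rw [Nat.add_zero] at hw hJ
      refine Prod.ext (Prod.ext e1 ?_) e2
      show D.T ω / 2 ^ (J - (w₀ + j₀ * z)) = D.T ω' / 2 ^ (J - (w₀ + j₀ * z))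
      rw [Pool.TMU.win_div _ hw hJ, Pool.TMU.win_div (D.T ω') hw hJ, e3]
    exact h1.trans (add_le_add h2 hk)
  · have h1 := hG.lej (le_refl M')
    have hx' : x ≤ M * z := by
      refine hx.trans ?_
      rw [← Nat.mul_assoc]
      exact Nat.mul_le_mul_right z (by omega)
    refine (le_trans (Finset.sum_le_sum fun u hu => ?_) (h.tm _ (hG.lej hj) x hx' E hE)).trans
      (by linarith)
    have hu' := Finset.mem_range.1 hu
    obtain ⟨w1, w2⟩ := hG.wle hO.thin hO.top hj (hu'.le.trans hx')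
    have e1 : w₀ + j₀ * z + j * (N * z) + u = w₀ + (j₀ + j * N) * z + u := by ring
    rw [e1]
    exact P2_le_of (cond_nonneg h0 _ _) (wn_cs (D := D) J i₀ N _) (wn_sc (D := D) J i₀ N w1 w2)
      fun _ _ _ _ _ h => h

/-! ### The conclusion -/

/-- **The conclusion goes back.** -/
theorem Concl2.of_sc {A K' : ℕ} {η' : ℝ} (hq : ∀ ω, 0 ≤ q ω) (hG : SubG i₀ j₀ N M' M)
    (hth : w₀ + (M + 1) * z ≤ a₀) (htp : a₀ + (M + 1) * z ≤ J)
    (h : (D.sc J w₀ i₀ j₀ N z).Concl2 n J (a₀ + i₀ * z) (w₀ + j₀ * z) (N * z) M' A K' η' q) :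
    D.Concl2 n J a₀ w₀ z M (A * N) K' η' q := by
  obtain ⟨i, hi, j, hj, Gn, Hn, h1, h2, h3⟩ := h
  obtain ⟨w1, w2⟩ := hG.wle hth htp hj (Nat.zero_le _)
  rw [Nat.add_zero] at w1 w2
  refine ⟨_, hG.lei hi, _, hG.lej hj, Gn,
    fun x => Hn ((x.1, x.2 / 2 ^ ((w₀ + (j₀ + j * N) * z) - (w₀ + j₀ * z))), x.2), h1,
    fun x => h2 _, h3.trans (Pool.Agent.H39.BFL.Pb_mono hq fun ω hω hh => ?_)⟩
  obtain ⟨g1, g2⟩ := hh
  have eA : A * N * z = A * (N * z) := by ring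
  rw [eA]
  refine ⟨g1, fun b hb => ?_⟩
  have g3 := g2 b (by rw [ea]; exact hb)
  have e2 : (D.sc J w₀ i₀ j₀ N z).wn J (w₀ + j₀ * z + j * (N * z)) ω =
      (((D.wn J (w₀ + (j₀ + j * N) * z) ω).1, (D.wn J (w₀ + (j₀ + j * N) * z) ω).2 /
        2 ^ ((w₀ + (j₀ + j * N) * z) - (w₀ + j₀ * z))),
        (D.wn J (w₀ + (j₀ + j * N) * z) ω).2) := by
    have e3 : w₀ + j₀ * z + j * (N * z) = w₀ + (j₀ + j * N) * z := by ring
    rw [e3]
    refine Prod.ext (Prod.ext rfl ?_) rfl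
    show D.T ω / 2 ^ (J - (w₀ + j₀ * z)) = D.T ω / 2 ^ (J - (w₀ + (j₀ + j * N) * z)) / _
    exact Pool.TMU.win_div _ w1 w2
  rw [e2] at g3
  exact g3

/-! ### Own leaves -/

/-- The base is full over own leaves. -/
theorem LLV.sc (h : D.LLV n z M κ q) (hG : SubG i₀ j₀ N M' M) {κ' : ℝ} (hκ : κ ≤ κ' * N)
    (hq : ∀ ω, 0 ≤ q ω) : (D.sc J w₀ i₀ j₀ N z).LLV n (N * z) M' κ' q := by
  classical
  intro i hi j hj U hU Sm A hA
  have hz : (0 : ℝ) ≤ z := Nat.cast_nonneg z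
  obtain ⟨φ, hφ⟩ : ∃ φ : ℕ × ℕ → ℕ × ℕ, φ = fun t => (i₀ + t.1 * N, j₀ + t.2 * N) := ⟨_, rfl⟩
  have h1 := h _ (hG.lei hi) _ (hG.lej hj) (U * N) (by
    have h2 := hG.lei hU
    rw [Nat.add_mul] at h2
    omega) Sm (A.image φ) (by
    intro t ht
    obtain ⟨t', ht', rfl⟩ := Finset.mem_image.1 ht
    obtain ⟨a1, a2, a3⟩ := hA t' ht'
    rw [hφ]
    exact ⟨hG.lei a1, hG.lej a2, a3⟩)
  rw [show U * N * z = U * (N * z) by ring] at h1
  have h2 : CH q (fun ω (l : Sm) => D.vd n (i₀ + i * N) (j₀ + j * N) (U * (N * z)) ω l)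
      (fun ω => ((fun t : A.image φ => D.s t.1.1 t.1.2 ω),
        (D.c (i₀ + i * N) (j₀ + j * N) ω, D.T ω))) ≤
      CH q (fun ω (l : Sm) => D.vd n (i₀ + i * N) (j₀ + j * N) (U * (N * z)) ω l)
      (fun ω => ((fun t : A => D.s (φ t.1).1 (φ t.1).2 ω),
        (D.c (i₀ + i * N) (j₀ + j * N) ω, D.T ω))) := by
    refine CH_mono_cond hq fun ω ω' _ _ e => ?_
    refine Prod.ext ?_ (Prod.ext_iff.1 e).2
    funext t
    exact congrFun (Prod.ext_iff.1 e).1 ⟨φ t.1, Finset.mem_image_of_mem φ t.2⟩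
  subst hφ
  refine le_trans ?_ (h1.trans h2)
  have h3 : κ * z ≤ κ' * N * z := mul_le_mul_of_nonneg_right hκ hz
  push_cast
  nlinarith

theorem SubG.inn (hG : SubG i₀ j₀ N M' M) {u i j : ℕ} (h : Inn M' u i j) :
    Inn M (u * N) (i₀ + i * N) (j₀ + j * N) := by
  obtain ⟨h1, h2, h3, h4⟩ := h
  have a1 := Nat.mul_le_mul_right N h1
  have a2 := hG.lei h2
  have a3 := Nat.mul_le_mul_right N h3
  have a4 := hG.lej h4
  rw [Nat.add_mul] at a2 a4
  exact ⟨by omega, by omega, by omega, by omega⟩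

theorem sep_sc {u i j i' j' : ℕ} (h : Sep2 u i j i' j') :
    Sep2 (u * N) (i₀ + i * N) (j₀ + j * N) (i₀ + i' * N) (j₀ + j' * N) := by
  rcases h with ⟨h1, h2⟩ | ⟨h1, h2⟩
  · have a1 := Nat.mul_le_mul_right N h1
    have a2 := Nat.mul_le_mul_right N h2
    rw [Nat.add_mul] at a1 a2
    exact Or.inl ⟨by omega, by omega⟩
  · have a1 := Nat.mul_le_mul_right N h1
    have a2 := Nat.mul_le_mul_right N h2
    rw [Nat.add_mul] at a1 a2
    exact Or.inr ⟨by omega, by omega⟩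

/-- The height of the target is almost independent of own leaves. -/
theorem LLN.sc {R : ℕ} (h : D.LLN n z M R κ q) (hG : SubG i₀ j₀ N M' M) {κ' : ℝ}
    (hκ : κ ≤ κ' * N) (hq : ∀ ω, 0 ≤ q ω) : (D.sc J w₀ i₀ j₀ N z).LLN n (N * z) M' R κ' q := by
  classical
  have hz : (0 : ℝ) ≤ z := Nat.cast_nonneg z
  have hk : κ * z ≤ κ' * ((N * z : ℕ) : ℝ) := by
    have h6 : κ * z ≤ κ' * N * z := mul_le_mul_of_nonneg_right hκ hz
    push_cast
    linarith
  have hR : ∀ U : ℕ, R * (U * N) = R * U * N := fun U => by ring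
  have hU : ∀ U : ℕ, U * N * z = U * (N * z) := fun U => by ring
  refine ⟨fun i j U h1 hi A hA => ?_, fun i j i' j' U h1 hi hi' hS => ?_⟩
  · obtain ⟨φ, hφ⟩ : ∃ φ : ℕ × ℕ → ℕ × ℕ, φ = fun t => (i₀ + t.1 * N, j₀ + t.2 * N) := ⟨_, rfl⟩
    have g1 := h.lab (i₀ + i * N) (j₀ + j * N) (U * N) (Nat.mul_pos h1 hG.N_pos)
      (by rw [hR]; exact hG.inn hi) (A.image φ) (by
        intro t ht
        obtain ⟨t', ht', rfl⟩ := Finset.mem_image.1 ht
        obtain ⟨a1, a2⟩ := hA t' ht'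
        rw [hφ, hR]
        exact ⟨hG.inn a1, a2⟩)
    rw [hU] at g1
    refine g1.trans (add_le_add ?_ hk)
    refine CH_mono_cond hq fun ω ω' _ _ e => ?_
    refine Prod.ext ?_ (Prod.ext_iff.1 e).2
    funext t
    have e2 := congrFun (Prod.ext_iff.1 e).1 ⟨φ t.1, Finset.mem_image_of_mem φ t.2⟩
    subst hφ
    exact e2
  · have g1 := h.shp (i₀ + i * N) (j₀ + j * N) (i₀ + i' * N) (j₀ + j' * N) (U * N)
      (Nat.mul_pos h1 hG.N_pos) (by rw [hR]; exact hG.inn hi) (by rw [hR]; exact hG.inn hi')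
      (by rw [hR]; exact sep_sc hS)
    rw [hU] at g1
    exact g1.trans (add_le_add le_rfl hk)

end NDat2

end Pool.STAT
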